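import Mathlib

set_option autoImplicit false

namespace Pool.Agent.Results.MP_19dfdc_nt.SquaresHSet

open Filter Topology

/-- distance from a real number to the nearest integer -/
noncomputable def distZ (x : ℝ) : ℝ := |x - round x|

/-- positive integers whose base-b digits are all 0 or 1: sums of distinct powers of b over a
nonempty finite set of exponents -/
def digitSet (b : ℕ) : Set ℕ := {n | ∃ S : Finset ℕ, S.Nonempty ∧ n = ∑ d ∈ S, b ^ d}

/-- H is an H-set: a function f tending to 0 bounds, uniformly in the real number γ, the minimum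
of the distance from nγ to the nearest integer over n in H with 1 ≤ n ≤ N -/
def IsHSet (H : Set ℕ) : Prop :=
  ∃ f : ℕ → ℝ, Tendsto f atTop (𝓝 0) ∧ ∀ (γ : ℝ) (N : ℕ), (∃ h ∈ H, 1 ≤ h ∧ h ≤ N) →
    ∃ n ∈ H, 1 ≤ n ∧ n ≤ N ∧ distZ (n * γ) ≤ f N

attribute [local instance] Ultrafilter.add

lemma lim_eq (U : Ultrafilter ℕ) (hU : U + U = U) (φ ψ : ℕ → UnitAddCircle) (L L' : UnitAddCircle)
    (h1 : Tendsto φ U (𝓝 L)) (h2 : ∀ m, Tendsto (fun m' => φ (m + m')) U (𝓝 (ψ m)))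
    (h3 : Tendsto ψ U (𝓝 L')) : L' = L := by
  apply eq_of_forall_dist_le
  intro ε hε
  have h4 : ∀ᶠ m in (U : Filter ℕ), φ m ∈ Metric.closedBall L ε :=
    h1 (Metric.closedBall_mem_nhds L hε)
  rw [← hU, Ultrafilter.eventually_add] at h4
  have h5 : ∀ᶠ m in (U : Filter ℕ), ψ m ∈ Metric.closedBall L ε := by
    filter_upwards [h4] with m hm
    exact Metric.isClosed_closedBall.mem_of_tendsto (h2 m) hm
  exact Metric.isClosed_closedBall.mem_of_tendsto h3 h5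

lemma exists_lim (U : Ultrafilter ℕ) (φ : ℕ → UnitAddCircle) : ∃ L, Tendsto φ U (𝓝 L) := by
  obtain ⟨L, _, hL⟩ := isCompact_univ.ultrafilter_le_nhds (U.map φ) (by simp)
  exact ⟨L, hL⟩

lemma lin (U : Ultrafilter ℕ) (hU : U + U = U) (γ : ℝ) :
    Tendsto (fun n : ℕ => (((n : ℝ) * γ : ℝ) : UnitAddCircle)) U (𝓝 0) := by
  obtain ⟨L, hL⟩ := exists_lim U (fun n : ℕ => (((n : ℝ) * γ : ℝ) : UnitAddCircle))
  have h := lim_eq U hU _ (fun m : ℕ => (((m : ℝ) * γ : ℝ) : UnitAddCircle) + L) L (L + L) hL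
    (fun m => by
      have := hL.const_add (((m : ℝ) * γ : ℝ) : UnitAddCircle)
      refine this.congr fun m' => ?_
      rw [← AddCircle.coe_add]
      congr 1
      push_cast
      ring) (hL.add_const L)
  have : L = 0 := by simpa using h
  rwa [this] at hL

lemma quad (U : Ultrafilter ℕ) (hU : U + U = U) (γ : ℝ) :
    Tendsto (fun n : ℕ => ((((n ^ 2 : ℕ) : ℝ) * γ : ℝ) : UnitAddCircle)) U (𝓝 0) := by
  obtain ⟨L, hL⟩ := exists_lim U (fun n : ℕ => ((((n ^ 2 : ℕ) : ℝ) * γ : ℝ) : UnitAddCircle))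
  have h := lim_eq U hU _ (fun m : ℕ => ((((m ^ 2 : ℕ) : ℝ) * γ : ℝ) : UnitAddCircle) + (0 + L))
    L (L + (0 + L)) hL
    (fun m => by
      have := ((lin U hU (2 * m * γ)).add hL).const_add
        ((((m ^ 2 : ℕ) : ℝ) * γ : ℝ) : UnitAddCircle)
      refine this.congr fun m' => ?_
      rw [← AddCircle.coe_add, ← AddCircle.coe_add]
      congr 1
      push_cast
      ring) (hL.add_const _)
  have : L = 0 := by simpa using h
  rwa [this] at hL

lemma FS_sub (b : ℕ) (a : Stream' ℕ) (m : ℕ) (hm : m ∈ Hindman.FS a) :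
    ∀ k : ℕ, (∀ i, a.get i = b ^ (i + k)) →
      ∃ S : Finset ℕ, S.Nonempty ∧ (∀ d ∈ S, k ≤ d) ∧ m = ∑ d ∈ S, b ^ d := by
  induction hm with
  | head' a =>
    intro k hk
    refine ⟨{k}, by simp, by simp, ?_⟩
    simpa [Stream'.head] using hk 0
  | tail' a m _ ih =>
    intro k hk
    obtain ⟨S, h1, h2, h3⟩ := ih (k + 1) (fun i => by
      rw [Stream'.get_tail, hk]; congr 1; ring)
    exact ⟨S, h1, fun d hd => by have := h2 d hd; omega, h3⟩
  | cons' a m _ ih =>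
    intro k hk
    obtain ⟨S, h1, h2, h3⟩ := ih (k + 1) (fun i => by
      rw [Stream'.get_tail, hk]; congr 1; ring)
    have hk' : k ∉ S := fun h => by have := h2 k h; omega
    refine ⟨insert k S, by simp, ?_, ?_⟩
    · intro d hd
      rcases Finset.mem_insert.1 hd with rfl | hd
      · exact le_rfl
      · have := h2 d hd; omega
    · rw [Finset.sum_insert hk', h3]
      congr 1
      simpa [Stream'.head] using hk 0

lemma pointwise (b : ℕ) (γ ε : ℝ) (hε : 0 < ε) :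
    ∃ s ∈ digitSet b, distZ (((s ^ 2 : ℕ) : ℝ) * γ) < ε := by
  obtain ⟨U, hU, hFS⟩ := Hindman.exists_idempotent_ultrafilter_le_FS
    (fun i => b ^ i : Stream' ℕ)
  have h1 := (quad U hU γ) (Metric.ball_mem_nhds 0 hε)
  obtain ⟨s, hs1, hs2⟩ := (hFS.and h1).exists
  obtain ⟨S, h2, _, h3⟩ := FS_sub b _ s hs1 0 (fun i => rfl)
  refine ⟨s, ⟨S, h2, h3⟩, ?_⟩
  have : ‖((((s ^ 2 : ℕ) : ℝ) * γ : ℝ) : UnitAddCircle)‖ < ε := by
    simpa using hs2
  rwa [UnitAddCircle.norm_eq] at this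

lemma distZ_eq (x : ℝ) : distZ x = ‖(x : UnitAddCircle)‖ := UnitAddCircle.norm_eq.symm

lemma distZ_cont : Continuous distZ := by
  have : distZ = fun x : ℝ => ‖(x : UnitAddCircle)‖ := funext distZ_eq
  rw [this]
  exact (AddCircle.continuous_mk' 1).norm

lemma distZ_fract (n : ℕ) (γ : ℝ) : distZ (n * Int.fract γ) = distZ (n * γ) := by
  rw [distZ_eq, distZ_eq]
  congr 1
  have : (n : ℝ) * γ = n * Int.fract γ + ((n * ⌊γ⌋ : ℤ) : ℝ) := by
    unfold Int.fract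
    push_cast
    ring
  rw [this, AddCircle.coe_add]
  have h0 : ((((n * ⌊γ⌋ : ℤ) : ℝ) : ℝ) : UnitAddCircle) = 0 := by
    rw [AddCircle.coe_eq_zero_iff]
    exact ⟨n * ⌊γ⌋, by simp⟩
  rw [h0, add_zero]

lemma hset_of_pointwise (H : Set ℕ) (hpos : ∀ n ∈ H, 1 ≤ n)
    (hH : ∀ (γ ε : ℝ), 0 < ε → ∃ n ∈ H, distZ (n * γ) < ε) : IsHSet H := by
  classical
  let g : ℕ → ℝ → ℝ := fun N γ => sInf ((fun n : ℕ => distZ (n * γ)) '' {n | n ∈ H ∧ 1 ≤ n ∧ n ≤ N})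
  have hbdd : ∀ N γ, BddBelow ((fun n : ℕ => distZ (n * γ)) '' {n | n ∈ H ∧ 1 ≤ n ∧ n ≤ N}) :=
    fun N γ => ⟨0, by rintro _ ⟨n, _, rfl⟩; exact abs_nonneg _⟩
  have hg0 : ∀ N γ, 0 ≤ g N γ := fun N γ =>
    Real.sInf_nonneg (by rintro _ ⟨n, _, rfl⟩; exact abs_nonneg _)
  have hg1 : ∀ N γ, g N γ ≤ 1 := by
    intro N γ
    by_cases h : {n | n ∈ H ∧ 1 ≤ n ∧ n ≤ N}.Nonempty
    · obtain ⟨n, hn⟩ := h
      refine le_trans (csInf_le (hbdd N γ) ⟨n, hn, rfl⟩) ?_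
      exact le_trans (abs_sub_round _) (by norm_num)
    · rw [Set.not_nonempty_iff_eq_empty] at h
      simp only [g]
      rw [h]
      simp
  have hb : ∀ N, BddAbove (Set.range (g N)) := fun N => ⟨1, by rintro _ ⟨γ, rfl⟩; exact hg1 N γ⟩
  refine ⟨fun N => sSup (Set.range (g N)), ?_, ?_⟩
  · rw [Metric.tendsto_atTop]
    intro ε hε
    have hcov : Set.Icc (0 : ℝ) 1 ⊆ ⋃ n : H, {γ : ℝ | distZ ((n : ℕ) * γ) < ε / 2} := by
      intro γ _
      obtain ⟨n, hn, h⟩ := hH γ (ε / 2) (by linarith)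
      exact Set.mem_iUnion.2 ⟨⟨n, hn⟩, h⟩
    obtain ⟨t, ht⟩ := isCompact_Icc.elim_finite_subcover _ (fun n : H =>
      isOpen_lt (distZ_cont.comp (continuous_const.mul continuous_id)) continuous_const) hcov
    refine ⟨t.sup (fun n => (n : ℕ)), fun N hN => ?_⟩
    have h1 : sSup (Set.range (g N)) ≤ ε / 2 := by
      refine csSup_le ⟨_, 0, rfl⟩ ?_
      rintro _ ⟨γ, rfl⟩
      have := ht (⟨Int.fract_nonneg γ, (Int.fract_lt_one γ).le⟩ : Int.fract γ ∈ Set.Icc (0 : ℝ) 1)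
      simp only [Set.mem_iUnion, Set.mem_ofPred_eq] at this
      obtain ⟨n, hn, h⟩ := this
      change distZ (((n : ℕ) : ℝ) * Int.fract γ) < ε / 2 at h
      rw [distZ_fract] at h
      refine le_trans (csInf_le (hbdd N γ) ⟨n, ⟨n.2, hpos _ n.2, ?_⟩, rfl⟩) h.le
      exact le_trans (Finset.le_sup (f := fun n : H => (n : ℕ)) hn) hN
    have h2 : 0 ≤ sSup (Set.range (g N)) := le_trans (hg0 N 0) (le_csSup (hb N) ⟨0, rfl⟩)
    rw [Real.dist_eq, sub_zero, abs_of_nonneg h2]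
    linarith
  · intro γ N hne
    have hfin : ((fun n : ℕ => distZ (n * γ)) '' {n | n ∈ H ∧ 1 ≤ n ∧ n ≤ N}).Finite :=
      Set.Finite.image _ ((Set.finite_Iic N).subset fun n hn => hn.2.2)
    obtain ⟨h, h1, h2, h3⟩ := hne
    have hne : ((fun n : ℕ => distZ (n * γ)) '' {n | n ∈ H ∧ 1 ≤ n ∧ n ≤ N}).Nonempty :=
      ⟨_, h, ⟨h1, h2, h3⟩, rfl⟩
    obtain ⟨n, hn, e⟩ := Set.Nonempty.csInf_mem hne hfin
    refine ⟨n, hn.1, hn.2.1, hn.2.2, ?_⟩
    exact le_trans (le_of_eq e) (le_csSup (hb N) ⟨γ, rfl⟩)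

theorem result : ∀ b : ℕ, 2 ≤ b → IsHSet {n | ∃ s ∈ digitSet b, n = s ^ 2} := by
  intro b hb
  apply hset_of_pointwise
  · rintro n ⟨s, ⟨S, hS, rfl⟩, rfl⟩
    apply Nat.one_le_pow
    exact Finset.sum_pos (fun d _ => by positivity) hS
  · intro γ ε hε
    obtain ⟨s, hs, h⟩ := pointwise b γ ε hε
    exact ⟨s ^ 2, ⟨s, hs, rfl⟩, h⟩

end Pool.Agent.Results.MP_19dfdc_nt.SquaresHSet
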